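import Pool.Agent.U659.FC.Match

/-!
# Nowhere-zero 5-flows and disjoint sets with four boundary edges
-/

set_option autoImplicit false
set_option linter.unusedSectionVars false

namespace Pool.Agent.U659.FC

open Finset Pool.Agent.TH676.Z Pool.Agent.Y335.FL Pool.Agent.Y358.IN Pool.Agent.U659.MT
  Pool.Agent.N410.FV

variable {V E : Type} [Fintype V] [DecidableEq V] [Fintype E] [DecidableEq E]

/-- connected, with exactly `k` boundary edges, none of them in `F` -/
def KSet (s d : E → V) (F : Finset E) (k : ℕ) (X : Finset V) : Prop :=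
  Conn s d X ∧ (crs s d X).card = k ∧ Disjoint (crs s d X) F

/-- the union of two disjoint connected sets with exactly three boundary edges -/
def Spl (s d : E → V) (F : Finset E) (X : Finset V) : Prop :=
  ∃ Y ⊆ X, KSet s d F 3 Y ∧ KSet s d F 3 (X \ Y)

/-- **Flows modulo five.** -/
theorem flow_four (hq : St_quot) (hc : St_contract) (ha : St_ahl) (s d : E → V) (F : Finset E)
    (hbr : Br s d ∅ ∅)
    (h : ¬ ∃ K J : Finset (Finset V), K.card = 63 ∧ J ⊆ K ∧ J.card = 31 ∧
      (∀ X ∈ K, KSet s d F 4 X) ∧ (∀ X ∈ J, Spl s d F X) ∧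
      ∀ X ∈ K, ∀ Y ∈ K, X ≠ Y → Disjoint X Y) : FlowOn s d ∅ F := by
  classical
  obtain ⟨W, _, _, r, hr, hrF, hl, hcl⟩ := hq V E s d F
  have h0 : FlowOn (r ∘ s) (r ∘ d) ∅ ∅ → FlowOn s d ∅ F := fun h => by
    have h1 := hl ∅ h
    rwa [union_empty] at h1
  apply h0
  by_contra hn
  have hbr' : Br (r ∘ s) (r ∘ d) ∅ ∅ := by
    intro Y _
    have h1 := hbr (univ.filter (fun v => r v ∈ Y)) (disjoint_empty_right _)
    rw [sdiff_empty] at h1 ⊢
    have h2 : crs (r ∘ s) (r ∘ d) Y = crs s d (univ.filter (fun v => r v ∈ Y)) := by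
      ext e
      rw [mem_crs'', mem_crs'', mem_filter, mem_filter]
      simp
    rw [h2]
    exact h1
  -- the class of all further contractions
  have hCC : CC (fun src dst : E → W => ClC s d src dst ∧ ∀ e ∈ F, src e = dst e) := by
    intro src dst e he hne
    refine ⟨ccC s d src dst e he.1 hne, fun e' he' => ?_⟩
    simp only [Function.comp, he.2 e' he']
  obtain ⟨s1, d1, ⟨⟨P, rfl, rfl, hP⟩, hPF⟩, hM⟩ := exists_minC hCC (r ∘ s) (r ∘ d)
    ⟨⟨r, rfl, rfl, fun w => conn_of_closed hrF hcl w⟩, hrF⟩ hbr' hn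
  by_cases hloop : ∀ e, (P ∘ s) e = (P ∘ d) e
  · exact hM.nf (flow_of_loops hloop)
  push Not at hloop
  obtain ⟨e0, he0⟩ := hloop
  have hex : ∃ x y, Adj (P ∘ s) (P ∘ d) x y :=
    ⟨(P ∘ s) e0, (P ∘ d) e0, he0, e0, Or.inl ⟨rfl, rfl⟩⟩
  obtain ⟨y, hy0, hy1, hN, hm, hs, hc4, hf⟩ := data2 hc ha hM hex
  obtain ⟨M, hMc, hM2, hMd⟩ := matching (s := P ∘ s) (d := P ∘ d) hM.br
  obtain ⟨h31, h63⟩ := numbers hy0 hy1 hN hm hs hc4 hf hMc
  -- the sets with four boundary edges in the quotient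
  set D4 : Finset W := univ.filter (fun x => dg (P ∘ s) (P ∘ d) x = 4) with hD4
  set Q : Finset (Finset W) := M ∪ D4.image (fun x => {x}) with hQ
  have hdisF : ∀ Z : Finset V, (∀ v w, P v = P w → (v ∈ Z ↔ w ∈ Z)) → Disjoint (crs s d Z) F := by
    intro Z hZ
    rw [disjoint_left]
    intro e he heF
    rw [mem_crs''] at he
    exact he (hZ _ _ (hPF e heF))
  set up : Finset W → Finset V := fun X => univ.filter (fun v => P v ∈ X) with hup
  have hmem : ∀ X v, v ∈ up X ↔ P v ∈ X := fun X v => by simp [hup]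
  have hup1 : ∀ x, up {x} = fbr P x := by
    intro x
    ext v
    rw [hmem, mem_fbr, mem_singleton]
  have hup2 : ∀ x y, up {x, y} = fbr P x ∪ fbr P y := by
    intro x y
    ext v
    rw [hmem, mem_union, mem_fbr, mem_fbr, mem_insert, mem_singleton]
  have hset : ∀ X v w, P v = P w → (v ∈ up X ↔ w ∈ up X) := by
    intro X v w hvw
    rw [hmem, hmem, hvw]
  have h3set : ∀ x ∈ Cv (P ∘ s) (P ∘ d), KSet s d F 3 (fbr P x) := by
    intro x hx
    refine ⟨hP x, ?_, ?_⟩
    · rw [card_crs_fbr]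
      exact mem_Cv.1 hx
    · rw [← hup1]
      exact hdisF _ (hset _)
  -- pairs
  have hpair : ∀ x y, Adj (P ∘ s) (P ∘ d) x y → x ∈ Cv (P ∘ s) (P ∘ d) →
      y ∈ Cv (P ∘ s) (P ∘ d) → KSet s d F 4 (up {x, y}) ∧ Spl s d F (up {x, y}) := by
    intro x y hxy hx hy
    obtain ⟨hne, e1, he1⟩ := hxy
    refine ⟨⟨?_, ?_, hdisF _ (hset _)⟩, ?_⟩
    · rw [hup2]
      refine conn_union (hP x) (hP y) ⟨e1, ?_⟩
      rcases he1 with ⟨h1, h2⟩ | ⟨h1, h2⟩
      · exact Or.inl ⟨mem_fbr.2 h1, mem_fbr.2 h2⟩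
      · exact Or.inr ⟨mem_fbr.2 h1, mem_fbr.2 h2⟩
    · -- count
      have h1 : crs s d (up {x, y}) = crs (P ∘ s) (P ∘ d) {x, y} := by
        ext e
        rw [mem_crs'', mem_crs'', hmem, hmem]
        rfl
      rw [h1]
      have h2 := handshake (P ∘ s) (P ∘ d) {x, y}
      rw [sum_pair hne, mem_Cv.1 hx, mem_Cv.1 hy] at h2
      have h3 : inn (P ∘ s) (P ∘ d) {x, y} = {e1} := by
        ext e
        rw [mem_inn, mem_singleton]
        constructor
        · rintro ⟨a, b, c⟩
          refine no_par hc hM hne (e := e) (e' := e1) ?_ he1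
          rw [mem_insert, mem_singleton] at b c
          rcases b with b | b <;> rcases c with c | c
          · exact absurd (b.trans c.symm) a
          · exact Or.inl ⟨b, c⟩
          · exact Or.inr ⟨b, c⟩
          · exact absurd (b.trans c.symm) a
        · rintro rfl
          rcases he1 with ⟨a, b⟩ | ⟨a, b⟩
          · exact ⟨by rw [a, b]; exact hne, by rw [a]; exact mem_insert_self _ _,
              by rw [b]; exact mem_insert_of_mem (mem_singleton_self _)⟩
          · exact ⟨by rw [a, b]; exact hne.symm,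
              by rw [a]; exact mem_insert_of_mem (mem_singleton_self _),
              by rw [b]; exact mem_insert_self _ _⟩
      rw [h3, card_singleton] at h2
      omega
    · have h4 : up {x, y} \ fbr P x = fbr P y := by
        ext v
        rw [mem_sdiff, hmem, mem_fbr, mem_fbr, mem_insert, mem_singleton]
        constructor
        · rintro ⟨a | a, b⟩
          · exact absurd a b
          · exact a
        · intro a
          exact ⟨Or.inr a, fun b => hne (b.symm.trans a)⟩
      refine ⟨fbr P x, ?_, h3set x hx, ?_⟩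
      · rw [hup2]
        exact subset_union_left
      · rw [h4]
        exact h3set y hy
  have hne0 : ∀ x, 0 < dg (P ∘ s) (P ∘ d) x → (fbr P x).Nonempty := by
    intro x hx
    obtain ⟨e, he⟩ := card_pos.1 (show 0 < (univ.filter (fun e => (P ∘ s) e ≠ (P ∘ d) e ∧
      ((P ∘ s) e = x ∨ (P ∘ d) e = x))).card from hx)
    obtain ⟨-, -, h5⟩ := mem_filter.1 he
    rcases h5 with h5 | h5
    · exact ⟨s e, mem_fbr.2 h5⟩
    · exact ⟨d e, mem_fbr.2 h5⟩
  -- the members of `Q`
  have hQdis : ∀ X ∈ Q, ∀ Y ∈ Q, X ≠ Y → Disjoint X Y := by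
    have key : ∀ X ∈ M, ∀ Y ∈ D4.image (fun x => ({x} : Finset W)), Disjoint X Y := by
      intro X hX Y hY
      obtain ⟨a, b, _, ha', hb', rfl⟩ := hM2 X hX
      obtain ⟨z, hz, rfl⟩ := mem_image.1 hY
      rw [disjoint_left]
      intro w hw hwz
      rw [mem_singleton] at hwz
      have hz4 := (mem_filter.1 hz).2
      rw [mem_Cv] at ha' hb'
      rw [mem_insert, mem_singleton] at hw
      rcases hw with hw | hw <;> rw [← hwz, hw] at hz4 <;> omega
    intro X hX Y hY hXY
    rcases mem_union.1 hX with hX | hX <;> rcases mem_union.1 hY with hY | hY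
    · exact hMd X hX Y hY hXY
    · exact key X hX Y hY
    · exact (key Y hY X hX).symm
    · obtain ⟨a, _, rfl⟩ := mem_image.1 hX
      obtain ⟨b, _, rfl⟩ := mem_image.1 hY
      rw [disjoint_singleton]
      exact fun h => hXY (by rw [h])
  have hMQ : M ⊆ Q := subset_union_left
  have hQc : 63 ≤ Q.card := by
    have h1 : Disjoint M (D4.image (fun x => ({x} : Finset W))) := by
      rw [disjoint_left]
      intro X hX hX'
      obtain ⟨a, b, hab, _, _, rfl⟩ := hM2 X hX
      obtain ⟨z, _, hz⟩ := mem_image.1 hX'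
      have h2 := card_pair hab.1
      rw [← hz, card_singleton] at h2
      omega
    rw [hQ, card_union_of_disjoint h1, card_image_of_injective _ (fun a b h => singleton_injective h)]
    exact h63
  obtain ⟨J, hJM, hJc⟩ := exists_subset_card_eq h31
  obtain ⟨K, hJK, hKQ, hKc⟩ := exists_subsuperset_card_eq (hJM.trans hMQ)
    (show J.card ≤ 63 by omega) hQc
  -- the members of `Q` have points over them
  have hQne : ∀ X ∈ Q, ∃ v, P v ∈ X := by
    intro X hX
    rcases mem_union.1 hX with hX | hX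
    · obtain ⟨a, b, _, ha', _, rfl⟩ := hM2 X hX
      obtain ⟨v, hv⟩ := hne0 a (by rw [mem_Cv.1 ha']; norm_num)
      exact ⟨v, by rw [mem_fbr.1 hv]; exact mem_insert_self _ _⟩
    · obtain ⟨a, ha', rfl⟩ := mem_image.1 hX
      obtain ⟨v, hv⟩ := hne0 a (by rw [(mem_filter.1 ha').2]; norm_num)
      exact ⟨v, by rw [mem_fbr.1 hv]; exact mem_singleton_self _⟩
  have hinj : ∀ X ∈ Q, ∀ Y ∈ Q, up X = up Y → X = Y := by
    intro X hX Y hY hXY
    by_contra hne
    obtain ⟨v, hv⟩ := hQne X hX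
    have h1 : v ∈ up Y := by
      rw [← hXY, hmem]
      exact hv
    rw [hmem] at h1
    exact disjoint_left.1 (hQdis X hX Y hY hne) hv h1
  refine h ⟨K.image up, J.image up, ?_, image_subset_image hJK, ?_, ?_, ?_, ?_⟩
  · rw [card_image_of_injOn, hKc]
    intro X hX Y hY hXY
    exact hinj X (hKQ (mem_coe.1 hX)) Y (hKQ (mem_coe.1 hY)) hXY
  · rw [card_image_of_injOn, hJc]
    intro X hX Y hY hXY
    exact hinj X (hMQ (hJM (mem_coe.1 hX))) Y (hMQ (hJM (mem_coe.1 hY))) hXY
  · intro Z hZ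
    obtain ⟨X, hX, rfl⟩ := mem_image.1 hZ
    rcases mem_union.1 (hKQ hX) with hX | hX
    · obtain ⟨a, b, hab, ha', hb', rfl⟩ := hM2 X hX
      exact (hpair a b hab ha' hb').1
    · obtain ⟨a, ha', rfl⟩ := mem_image.1 hX
      refine ⟨?_, ?_, hdisF _ (hset _)⟩
      · rw [hup1]
        exact hP a
      · rw [hup1, card_crs_fbr]
        exact (mem_filter.1 ha').2
  · intro Z hZ
    obtain ⟨X, hX, rfl⟩ := mem_image.1 hZ
    obtain ⟨a, b, hab, ha', hb', rfl⟩ := hM2 X (hJM hX)
    exact (hpair a b hab ha' hb').2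
  · intro Z hZ Z' hZ' hne
    obtain ⟨X, hX, rfl⟩ := mem_image.1 hZ
    obtain ⟨Y, hY, rfl⟩ := mem_image.1 hZ'
    have hXY : X ≠ Y := fun h => hne (by rw [h])
    rw [disjoint_left]
    intro v hv hv'
    rw [hmem] at hv hv'
    exact disjoint_left.1 (hQdis X (hKQ hX) Y (hKQ hY) hXY) hv hv'

end Pool.Agent.U659.FC
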