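import Pool.Agent.U659.MT.Lift
import Pool.Agent.N410.FV.Data
import Pool.Agent.Y335.FL.Local11

/-!
# Quotients of a graph with connected fibres
-/

set_option autoImplicit false
set_option linter.unusedSectionVars false

namespace Pool.Agent.U659.FC

open Finset Pool.Agent.TH676.Z Pool.Agent.Y335.FL Pool.Agent.Y358.IN Pool.Agent.U659.MT

variable {V W E : Type} [Fintype V] [DecidableEq V] [Fintype W] [DecidableEq W]
  [Fintype E] [DecidableEq E]

/-- the fibre -/
def fbr (P : V → W) (w : W) : Finset V := univ.filter (fun v => P v = w)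

theorem mem_fbr {P : V → W} {w : W} {v : V} : v ∈ fbr P w ↔ P v = w := by simp [fbr]

theorem mem_crs'' {s d : E → V} {X : Finset V} {e : E} :
    e ∈ crs s d X ↔ ¬ (s e ∈ X ↔ d e ∈ X) := by simp [crs]

theorem conn_empty (s d : E → V) : Conn s d ∅ := by
  intro Y hY hn
  obtain ⟨y, hy⟩ := hn
  exact absurd (hY hy) (notMem_empty y)

/-- the union of two connected sets which are joined by an edge -/
theorem conn_union {s d : E → V} {X Y : Finset V} (hX : Conn s d X) (hY : Conn s d Y)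
    (h : ∃ e, (s e ∈ X ∧ d e ∈ Y) ∨ (s e ∈ Y ∧ d e ∈ X)) : Conn s d (X ∪ Y) := by
  intro Z hZ hn hne
  by_cases h1 : (Z ∩ X).Nonempty ∧ Z ∩ X ≠ X
  · obtain ⟨e, he⟩ := hX (Z ∩ X) inter_subset_right h1.1 h1.2
    refine ⟨e, ?_⟩
    rcases he with ⟨a, b, c⟩ | ⟨a, b, c⟩
    · exact Or.inl ⟨(mem_inter.1 a).1, mem_union_left _ b, fun h => c (mem_inter.2 ⟨h, b⟩)⟩
    · exact Or.inr ⟨(mem_inter.1 a).1, mem_union_left _ b, fun h => c (mem_inter.2 ⟨h, b⟩)⟩
  by_cases h2 : (Z ∩ Y).Nonempty ∧ Z ∩ Y ≠ Y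
  · obtain ⟨e, he⟩ := hY (Z ∩ Y) inter_subset_right h2.1 h2.2
    refine ⟨e, ?_⟩
    rcases he with ⟨a, b, c⟩ | ⟨a, b, c⟩
    · exact Or.inl ⟨(mem_inter.1 a).1, mem_union_right _ b, fun h => c (mem_inter.2 ⟨h, b⟩)⟩
    · exact Or.inr ⟨(mem_inter.1 a).1, mem_union_right _ b, fun h => c (mem_inter.2 ⟨h, b⟩)⟩
  -- both parts are trivial
  have hXc : (∀ x ∈ X, x ∉ Z) ∨ X ⊆ Z := by
    by_cases h3 : (Z ∩ X).Nonempty
    · right
      have h4 : Z ∩ X = X := by
        by_contra h5
        exact h1 ⟨h3, h5⟩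
      exact h4 ▸ inter_subset_left
    · left
      intro x hx hxZ
      exact h3 ⟨x, mem_inter.2 ⟨hxZ, hx⟩⟩
  have hYc : (∀ x ∈ Y, x ∉ Z) ∨ Y ⊆ Z := by
    by_cases h3 : (Z ∩ Y).Nonempty
    · right
      have h4 : Z ∩ Y = Y := by
        by_contra h5
        exact h2 ⟨h3, h5⟩
      exact h4 ▸ inter_subset_left
    · left
      intro x hx hxZ
      exact h3 ⟨x, mem_inter.2 ⟨hxZ, hx⟩⟩
  obtain ⟨e, he⟩ := h
  refine ⟨e, ?_⟩
  rcases hXc with hXc | hXc <;> rcases hYc with hYc | hYc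
  · obtain ⟨z, hz⟩ := hn
    rcases mem_union.1 (hZ hz) with h | h
    · exact absurd hz (hXc z h)
    · exact absurd hz (hYc z h)
  · rcases he with ⟨a, b⟩ | ⟨a, b⟩
    · exact Or.inr ⟨hYc b, mem_union_left _ a, hXc _ a⟩
    · exact Or.inl ⟨hYc a, mem_union_left _ b, hXc _ b⟩
  · rcases he with ⟨a, b⟩ | ⟨a, b⟩
    · exact Or.inl ⟨hXc a, mem_union_right _ b, hYc _ b⟩
    · exact Or.inr ⟨hXc b, mem_union_right _ a, hYc _ a⟩
  · exact absurd (subset_antisymm hZ (union_subset hXc hYc)) hne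

/-- the class of the quotients with connected fibres -/
def ClC (s d : E → V) (src dst : E → W) : Prop :=
  ∃ P : V → W, src = P ∘ s ∧ dst = P ∘ d ∧ ∀ w, Conn s d (fbr P w)

theorem ccC (s d : E → V) : CC (ClC (W := W) s d) := by
  rintro src dst e ⟨P, rfl, rfl, hP⟩ hne
  refine ⟨ctr (P (s e)) (P (d e)) ∘ P, rfl, rfl, fun w => ?_⟩
  change P (s e) ≠ P (d e) at hne
  by_cases h1 : w = P (s e)
  · have h2 : fbr (ctr (P (s e)) (P (d e)) ∘ P) w = fbr P (P (s e)) ∪ fbr P (P (d e)) := by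
      ext v
      rw [mem_union, mem_fbr, mem_fbr, mem_fbr, Function.comp, h1]
      unfold ctr
      split_ifs with h
      · simp [h]
      · simp [h]
    rw [h2]
    exact conn_union (hP _) (hP _) ⟨e, Or.inl ⟨mem_fbr.2 rfl, mem_fbr.2 rfl⟩⟩
  · by_cases h3 : w = P (d e)
    · have h2 : fbr (ctr (P (s e)) (P (d e)) ∘ P) w = ∅ := by
        rw [eq_empty_iff_forall_notMem]
        intro v hv
        rw [mem_fbr, h3] at hv
        exact ctr_ne_v hne _ hv
      rw [h2]
      exact conn_empty s d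
    · have h2 : fbr (ctr (P (s e)) (P (d e)) ∘ P) w = fbr P w := by
        ext v
        rw [mem_fbr, mem_fbr, Function.comp]
        unfold ctr
        split_ifs with h
        · constructor
          · intro h5
            exact absurd h5.symm h1
          · intro h5
            exact absurd (h5.symm.trans h) h3
        · rfl
      rw [h2]
      exact hP w

/-- the fibres of the contraction of `F` are connected -/
theorem conn_of_closed {s d : E → V} {F : Finset E} {r : V → W}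
    (h1 : ∀ e ∈ F, r (s e) = r (d e))
    (h2 : ∀ Y : Finset V, Disjoint (crs s d Y) F → ∀ x y, r x = r y → (x ∈ Y ↔ y ∈ Y)) (w : W) :
    Conn s d (fbr r w) := by
  intro Y hY hn hne
  by_contra hcon
  push Not at hcon
  have h3 : Disjoint (crs s d Y) F := by
    rw [disjoint_left]
    intro e he heF
    rw [mem_crs''] at he
    have h4 := h1 e heF
    by_cases h5 : s e ∈ Y
    · have h6 : d e ∈ fbr r w := by
        have := mem_fbr.1 (hY h5)
        rw [mem_fbr, ← h4]
        exact this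
      have h7 := (hcon e).1 h5 h6
      exact he ⟨fun _ => h7, fun _ => h5⟩
    · by_cases h6 : d e ∈ Y
      · have h7 : s e ∈ fbr r w := by
          have := mem_fbr.1 (hY h6)
          rw [mem_fbr, h4]
          exact this
        exact h5 ((hcon e).2 h6 h7)
      · exact he ⟨fun h => absurd h h5, fun h => absurd h h6⟩
  apply hne
  apply subset_antisymm hY
  intro v hv
  obtain ⟨y, hy⟩ := hn
  exact (h2 Y h3 y v ((mem_fbr.1 (hY hy)).trans (mem_fbr.1 hv).symm)).1 hy

/-- the edges which leave a fibre -/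
theorem crs_fbr {s d : E → V} (P : V → W) (x : W) :
    crs s d (fbr P x) = univ.filter (fun e => (P ∘ s) e ≠ (P ∘ d) e ∧
      ((P ∘ s) e = x ∨ (P ∘ d) e = x)) := by
  ext e
  rw [mem_crs'', mem_fbr, mem_fbr, mem_filter]
  simp only [mem_univ, true_and, Function.comp]
  by_cases h1 : P (s e) = x <;> by_cases h2 : P (d e) = x
  · simp [h1, h2]
  · simp [h1, h2]
    intro h9
    exact h2 h9.symm
  · simp [h1, h2]
  · simp [h1, h2]

theorem card_crs_fbr {s d : E → V} (P : V → W) (x : W) :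
    (crs s d (fbr P x)).card = dg (P ∘ s) (P ∘ d) x := by
  rw [crs_fbr]
  rfl

/-- the edges which leave the union of two fibres -/
theorem crs_union {s d : E → V} (P : V → W) (x y : W) :
    crs s d (fbr P x ∪ fbr P y) = univ.filter (fun e => ¬ ((P ∘ s) e ∈ ({x, y} : Finset W) ↔
      (P ∘ d) e ∈ ({x, y} : Finset W))) := by
  ext e
  rw [mem_crs'', mem_filter, mem_union, mem_union, mem_fbr, mem_fbr, mem_fbr, mem_fbr, mem_insert,
    mem_insert, mem_singleton, mem_singleton]
  simp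

end Pool.Agent.U659.FC
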