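import Pool.Agent.U659.MT.Count
import Pool.Agent.U659.FC.Quot

/-!
# Disjoint edges between vertices of degree three in a minimal quotient
-/

set_option autoImplicit false
set_option linter.unusedSectionVars false

namespace Pool.Agent.U659.FC

open Finset Pool.Agent.TH676.Z Pool.Agent.Y335.FL Pool.Agent.Y358.IN Pool.Agent.U659.MT
  Pool.Agent.N410.FV

variable {V E : Type} [Fintype V] [DecidableEq V] [Fintype E] [DecidableEq E]

/-- the boundary of an odd set of vertices of degree three -/
theorem three_le_crs {s d : E → V} (hb : Br s d ∅ ∅) {O : Finset V} (hO : Odd O.card)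
    (h3 : ∀ x ∈ O, dg s d x = 3) : 3 ≤ (crs s d O).card := by
  have h5 : ∑ x ∈ O, dg s d x = 3 * O.card := by
    rw [sum_congr rfl (fun x hx => h3 x hx), sum_const, smul_eq_mul, mul_comm]
  rw [handshake] at h5
  have h6 : (crs s d O).card ≠ 1 := by
    have := hb O (disjoint_empty_right _)
    rwa [sdiff_empty] at this
  obtain ⟨k, hk⟩ := hO
  omega

/-- **The matching.** -/
theorem matching {s d : E → V} (hb : Br s d ∅ ∅) :
    ∃ F : Finset (Finset V), 3 * (Cv s d).card ≤ 3 * F.card + (ein s d univ).card ∧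
      (∀ X ∈ F, ∃ x y, Adj s d x y ∧ x ∈ Cv s d ∧ y ∈ Cv s d ∧ X = {x, y}) ∧
      ∀ X ∈ F, ∀ Y ∈ F, X ≠ Y → Disjoint X Y := by
  classical
  let G : SimpleGraph V :=
    { Adj := Adj s d
      symm := ⟨fun a b h => GiAux.adj_symm h⟩
      loopless := ⟨fun a h => h.1 rfl⟩ }
  set T : Finset V := Cv s d with hT
  set D : Finset V := univ \ T with hD
  set m : ℕ := (ein s d univ).card with hm
  have hTd : ∀ x ∈ T, dg s d x = 3 := fun x hx => mem_Cv.1 hx
  have hsumT : ∑ x ∈ T, dg s d x = 3 * T.card := by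
    rw [sum_congr rfl (fun x hx => hTd x hx), sum_const, smul_eq_mul, mul_comm]
  have hsum : ∑ x ∈ D, dg s d x + 3 * T.card = 2 * m := by
    rw [← hsumT, hD, sum_sdiff (subset_univ T), sum_dg]
  -- an odd component on its own
  have hD4 : ∀ x ∈ D, dg s d x = 0 ∨ dg s d x = 1 ∨ dg s d x = 2 ∨ 4 ≤ dg s d x := by
    intro x hx
    have h1 : dg s d x ≠ 3 := fun h => (mem_sdiff.1 hx).2 (mem_Cv.2 h)
    omega
  -- the boundary of disjoint closed sets
  have hcount : ∀ (A : Finset V) (F : Finset (Finset V)), A ⊆ T → (∀ O ∈ F, Odd O.card) →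
      (∀ O ∈ F, ∀ O' ∈ F, O ≠ O' → Disjoint O O') → (∀ O ∈ F, O ⊆ T \ A) →
      (∀ O ∈ F, ∀ x ∈ O, ∀ y ∈ T, G.Adj x y → y ∈ O ∨ y ∈ A) →
      3 * F.card ≤ 3 * A.card + ∑ x ∈ D, dg s d x := by
    intro A F hAT hodd hdisj hsub hcl
    have h1 : ∀ O ∈ F, 3 ≤ (crs s d O).card := fun O hO =>
      three_le_crs hb (hodd O hO) (fun x hx => hTd x (mem_sdiff.1 (hsub O hO hx)).1)
    -- an edge which leaves a member has its other end in `A` or in `D`
    have hout : ∀ O ∈ F, ∀ e ∈ crs s d O, (s e ∈ O ∧ (d e ∈ A ∨ d e ∈ D)) ∨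
        (d e ∈ O ∧ (s e ∈ A ∨ s e ∈ D)) := by
      intro O hO e he
      rw [mem_crs''] at he
      by_cases h2 : s e ∈ O
      · have h3 : d e ∉ O := fun h => he ⟨fun _ => h, fun _ => h2⟩
        refine Or.inl ⟨h2, ?_⟩
        by_cases h4 : d e ∈ T
        · have hne : s e ≠ d e := fun h => h3 (h ▸ h2)
          exact Or.inl ((hcl O hO _ h2 _ h4 ⟨hne, e, Or.inl ⟨rfl, rfl⟩⟩).resolve_left h3)
        · exact Or.inr (mem_sdiff.2 ⟨mem_univ _, h4⟩)
      · have h3 : d e ∈ O := by
          by_contra h4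
          exact he ⟨fun h => absurd h h2, fun h => absurd h h4⟩
        refine Or.inr ⟨h3, ?_⟩
        by_cases h4 : s e ∈ T
        · have hne : s e ≠ d e := fun h => h2 (h ▸ h3)
          exact Or.inl ((hcl O hO _ h3 _ h4 ⟨hne.symm, e, Or.inr ⟨rfl, rfl⟩⟩).resolve_left h2)
        · exact Or.inr (mem_sdiff.2 ⟨mem_univ _, h4⟩)
    have hnot : ∀ O ∈ F, ∀ x ∈ O, x ∉ A ∧ x ∉ D := by
      intro O hO x hx
      obtain ⟨h2, h3⟩ := mem_sdiff.1 (hsub O hO hx)
      exact ⟨h3, fun h => (mem_sdiff.1 h).2 h2⟩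
    have h2 : ∑ O ∈ F, (crs s d O).card = (F.biUnion (crs s d)).card := by
      rw [card_biUnion]
      intro O hO O' hO' hne
      change Disjoint (crs s d O) (crs s d O')
      rw [disjoint_left]
      intro e he he'
      have k1 := hout O hO e he
      have k2 := hout O' hO' e he'
      have k3 := hnot O hO
      have k4 := hnot O' hO'
      have k5 := disjoint_left.1 (hdisj O hO O' hO' hne)
      rcases k1 with ⟨a, b⟩ | ⟨a, b⟩ <;> rcases k2 with ⟨a', b'⟩ | ⟨a', b'⟩
      · exact k5 a a'
      · rcases b with b | b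
        · exact (k4 _ a').1 b
        · exact (k4 _ a').2 b
      · rcases b with b | b
        · exact (k4 _ a').1 b
        · exact (k4 _ a').2 b
      · exact k5 a a'
    have h3 : F.biUnion (crs s d) ⊆ A.biUnion (Ord.sg s d) ∪ D.biUnion (Ord.sg s d) := by
      intro e he
      obtain ⟨O, hO, he⟩ := mem_biUnion.1 he
      have k3 := hnot O hO
      rw [mem_union, mem_biUnion, mem_biUnion]
      rcases hout O hO e he with ⟨a, b⟩ | ⟨a, b⟩
      · have hne : s e ≠ d e := by
          intro h
          rw [← h] at b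
          exact b.elim (k3 _ a).1 (k3 _ a).2
        rcases b with b | b
        · exact Or.inl ⟨d e, b, Ord.mem_sg.2 ⟨hne, Or.inr rfl⟩⟩
        · exact Or.inr ⟨d e, b, Ord.mem_sg.2 ⟨hne, Or.inr rfl⟩⟩
      · have hne : s e ≠ d e := by
          intro h
          rw [h] at b
          exact b.elim (k3 _ a).1 (k3 _ a).2
        rcases b with b | b
        · exact Or.inl ⟨s e, b, Ord.mem_sg.2 ⟨hne, Or.inl rfl⟩⟩
        · exact Or.inr ⟨s e, b, Ord.mem_sg.2 ⟨hne, Or.inl rfl⟩⟩
    have h4 : (A.biUnion (Ord.sg s d)).card ≤ 3 * A.card := by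
      refine card_biUnion_le.trans ?_
      have : ∑ x ∈ A, (Ord.sg s d x).card = ∑ x ∈ A, 3 :=
        sum_congr rfl (fun x hx => by rw [← Ord.dg_eq]; exact hTd x (hAT hx))
      rw [this, sum_const, smul_eq_mul, mul_comm]
    have h5 : (D.biUnion (Ord.sg s d)).card ≤ ∑ x ∈ D, dg s d x := by
      refine card_biUnion_le.trans (le_of_eq ?_)
      exact sum_congr rfl (fun x _ => by rw [← Ord.dg_eq])
    have h6 := (card_le_card h3).trans (card_union_le _ _)
    have h7 : 3 * F.card ≤ ∑ O ∈ F, (crs s d O).card := by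
      have := sum_le_sum h1
      rwa [sum_const, smul_eq_mul, mul_comm] at this
    omega
  -- the parameter of the Tutte-Berge formula
  have hTodd : Odd T.card → 3 ≤ ∑ x ∈ D, dg s d x := by
    intro h
    have h1 := hcount ∅ {T} (empty_subset _) (by simpa using h)
      (by
        intro O hO O' hO' hne
        rw [mem_singleton] at hO hO'
        exact absurd (hO.trans hO'.symm) hne)
      (by simp) (by
        intro O hO x _ y hy _
        rw [mem_singleton] at hO
        rw [hO]
        exact Or.inl hy)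
    simpa using h1
  obtain ⟨l, hl1, hl2, hl3⟩ : ∃ l, Even (T.card + l) ∧ 3 * l ≤ ∑ x ∈ D, dg s d x ∧
      ∑ x ∈ D, dg s d x < 3 * (l + 2) := by
    set S := ∑ x ∈ D, dg s d x with hS
    by_cases h1 : Even (T.card + S / 3)
    · exact ⟨S / 3, h1, by omega, by omega⟩
    · rw [Nat.not_even_iff_odd] at h1
      have h2 : 1 ≤ S / 3 := by
        by_contra h3
        have h4 : S / 3 = 0 := by omega
        rw [h4, add_zero] at h1
        have := hTodd h1
        omega
      refine ⟨S / 3 - 1, ?_, by omega, by omega⟩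
      obtain ⟨k, hk⟩ := h1
      exact ⟨k, by omega⟩
  obtain ⟨U, μ, hUT, hU, hm2⟩ := H168DD.tutte_berge G T l hl1 (by
    intro A F hAT hodd hdisj hsub hcl
    by_contra hlt
    push Not at hlt
    set B := F.biUnion id with hB
    have hBc : B.card = ∑ O ∈ F, O.card := by
      rw [hB, card_biUnion]
      · rfl
      · intro O hO O' hO' h
        exact hdisj O hO O' hO' h
    have hBT : B ⊆ T \ A := by
      intro x hx
      rw [hB, mem_biUnion] at hx
      obtain ⟨O, hO, hx⟩ := hx
      exact hsub O hO hx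
    set R := (T \ A) \ B with hR
    have hRc : R.card + B.card + A.card = T.card := by
      have h1 : R.card + B.card = (T \ A).card := card_sdiff_add_card_eq_card hBT
      have h2 : (T \ A).card + A.card = T.card := card_sdiff_add_card_eq_card hAT
      omega
    -- parity
    have hpar : ∀ F' : Finset (Finset V), (∀ O ∈ F', Odd O.card) →
        (∑ O ∈ F', O.card) % 2 = F'.card % 2 := by
      intro F'
      induction F' using Finset.induction_on with
      | empty => intro _; simp
      | insert a t ha ih =>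
        intro ho
        rw [sum_insert ha, card_insert_of_notMem ha]
        have h1 := ih (fun O hO => ho O (mem_insert_of_mem hO))
        obtain ⟨k, hk⟩ := ho a (mem_insert_self _ _)
        omega
    have hp := hpar F hodd
    rw [← hBc] at hp
    obtain ⟨q, hq⟩ := hl1
    by_cases hRo : Odd R.card
    · -- add the rest
      have hRF : R ∉ F := by
        intro h
        obtain ⟨k, hk⟩ := hRo
        obtain ⟨x, hx⟩ := card_pos.1 (show 0 < R.card by omega)
        exact (mem_sdiff.1 hx).2 (mem_biUnion.2 ⟨R, h, hx⟩)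
      have h1 := hcount A (insert R F) hAT (by
          intro O hO
          rcases mem_insert.1 hO with rfl | h
          · exact hRo
          · exact hodd O h)
        (by
          have key : ∀ O ∈ F, Disjoint R O := by
            intro O hO
            rw [disjoint_left]
            intro x hx hx'
            exact (mem_sdiff.1 hx).2 (mem_biUnion.2 ⟨O, hO, hx'⟩)
          intro O hO O' hO' hne
          rcases mem_insert.1 hO with rfl | h <;> rcases mem_insert.1 hO' with rfl | h'
          · exact absurd rfl hne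
          · exact key O' h'
          · exact (key O h).symm
          · exact hdisj O h O' h' hne)
        (by
          intro O hO
          rcases mem_insert.1 hO with rfl | h
          · exact sdiff_subset
          · exact hsub O h)
        (by
          intro O hO x hx y hy hxy
          rcases mem_insert.1 hO with rfl | h
          · by_cases hyA : y ∈ A
            · exact Or.inr hyA
            · left
              refine mem_sdiff.2 ⟨mem_sdiff.2 ⟨hy, hyA⟩, fun hyB => ?_⟩
              obtain ⟨O', hO', hyO⟩ := mem_biUnion.1 hyB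
              have hxT := (mem_sdiff.1 (mem_sdiff.1 hx).1)
              rcases hcl O' hO' y hyO x hxT.1 hxy.symm with h | h
              · exact (mem_sdiff.1 hx).2 (mem_biUnion.2 ⟨O', hO', h⟩)
              · exact hxT.2 h
          · exact hcl O h x hx y hy hxy)
      rw [card_insert_of_notMem hRF] at h1
      obtain ⟨k, hk⟩ := hRo
      omega
    · have h1 := hcount A F hAT hodd hdisj hsub hcl
      rw [Nat.not_odd_iff_even] at hRo
      obtain ⟨k, hk⟩ := hRo
      omega)
  refine ⟨(T \ U).image (fun x => {x, μ x}), ?_, ?_, ?_⟩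
  · have h1 := card_sdiff_add_card_eq_card hUT
    have h2 : (T \ U).card ≤ 2 * ((T \ U).image (fun x => ({x, μ x} : Finset V))).card := by
      refine card_le_mul_card_image _ _ ?_
      intro X hX
      obtain ⟨x, hx, rfl⟩ := mem_image.1 hX
      refine le_trans (card_le_card (t := {x, μ x}) ?_) card_le_two
      intro y hy
      have := (mem_filter.1 hy).2
      rw [← this]
      exact mem_insert_self _ _
    omega
  · intro X hX
    obtain ⟨x, hx, rfl⟩ := mem_image.1 hX
    exact ⟨x, μ x, (hm2 x hx).2.2, (mem_sdiff.1 hx).1, (mem_sdiff.1 (hm2 x hx).1).1, rfl⟩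
  · intro X hX Y hY hXY
    obtain ⟨x, hx, rfl⟩ := mem_image.1 hX
    obtain ⟨y, hy, rfl⟩ := mem_image.1 hY
    rw [disjoint_left]
    intro z hz hz'
    apply hXY
    have hxm := (hm2 x hx).2.1
    have hym := (hm2 y hy).2.1
    have key : ∀ z w : V, μ (μ z) = z → w ∈ ({z, μ z} : Finset V) →
        ({z, μ z} : Finset V) = {w, μ w} := by
      intro z w h1 h2
      rw [mem_insert, mem_singleton] at h2
      rcases h2 with rfl | rfl
      · rfl
      · rw [h1, pair_comm]
    rw [key x z hxm hz, key y z hym hz']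

/-- **Order and number of edges of a minimal quotient** -/
theorem data2 (hc : St_contract) (ha : St_ahl) {src dst : E → V} (hM : MinC src dst)
    (hex : ∃ x y, Adj src dst x y) :
    ∃ y : ℝ, 0 ≤ y ∧ y ≤ 1 / 3 ∧ 2 * ∑ i ∈ range 6, (2 + y) ^ i ≤ ((Bv src dst).card : ℝ) ∧
      (3 + y) * ((Bv src dst).card : ℝ) = 2 * ((ein src dst univ).card : ℝ) ∧
      3 * (ein src dst univ).card + 6 ≤ 5 * (Bv src dst).card ∧
      4 * (Bv src dst).card ≤ 2 * (ein src dst univ).card + (Cv src dst).card ∧
      5 * (Bv src dst).card ≤ 2 * (ein src dst univ).card + 2 * (Cv src dst).card +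
        (univ.filter (fun x => dg src dst x = 4)).card := by
  classical
  have h3 := threeC hc hM
  have hgi := girthC hc hM
  set B : Finset V := Bv src dst with hB
  have hmB : ∀ v, v ∈ B ↔ ∃ y, Adj src dst v y := fun v => mem_Bv
  let G : SimpleGraph B :=
    { Adj := fun a b => Adj src dst a b
      symm := ⟨fun a b h => GiAux.adj_symm h⟩
      loopless := ⟨fun a h => h.1 rfl⟩ }
  have hGA : ∀ a b : B, G.Adj a b ↔ Adj src dst a b := fun a b => Iff.rfl
  obtain ⟨x0, y0, hxy0⟩ := hex
  haveI : Nonempty B := ⟨⟨x0, (hmB x0).2 ⟨y0, hxy0⟩⟩⟩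
  have hdeg : ∀ a : B, dg src dst a ≤ G.degree a := by
    intro a
    refine (dg_le_nb hc hM a).trans ?_
    rw [← G.card_neighborFinset_eq_degree]
    have h5 : nb src dst a ⊆ (G.neighborFinset a).map (Function.Embedding.subtype _) := by
      intro w hw
      have hw' : Adj src dst a w := (mem_filter.1 hw).2
      have hwB : w ∈ B := (hmB w).2 ⟨a, GiAux.adj_symm hw'⟩
      rw [mem_map]
      exact ⟨⟨w, hwB⟩, by rw [SimpleGraph.mem_neighborFinset, hGA]; exact hw', rfl⟩
    have h6 := card_le_card h5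
    rwa [card_map] at h6
  have hdg3 : ∀ a : B, 3 ≤ dg src dst a := by
    intro a
    obtain ⟨y, hy⟩ := (hmB a).1 a.2
    exact Ord.three_dg h3 hy
  have hdeg3 : ∀ a : B, 3 ≤ G.degree a := fun a => (hdg3 a).trans (hdeg a)
  have hahl := ha B G (fun a => by have := hdeg3 a; omega) (by
    intro k hk v hv h
    exact hgi k hk (fun i => (v i : V)) (fun i j hij => hv (Subtype.ext hij)) h)
  have hB2 : 2 ≤ B.card := by
    have h5 : ({x0, y0} : Finset V) ⊆ B := by
      intro z hz
      rw [mem_insert, mem_singleton] at hz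
      rcases hz with rfl | rfl
      · exact (hmB _).2 ⟨y0, hxy0⟩
      · exact (hmB _).2 ⟨x0, GiAux.adj_symm hxy0⟩
    have h6 := card_le_card h5
    rwa [card_pair hxy0.1] at h6
  have hsp := sparse hM B hB2
  have heB : ein src dst B = ein src dst univ := by
    ext e
    rw [mem_ein, mem_ein]
    constructor
    · rintro ⟨_, _, h⟩; exact ⟨mem_univ _, mem_univ _, h⟩
    · rintro ⟨_, _, h⟩
      exact ⟨(hmB _).2 ⟨dst e, h, e, Or.inl ⟨rfl, rfl⟩⟩,
        (hmB _).2 ⟨src e, h.symm, e, Or.inr ⟨rfl, rfl⟩⟩, h⟩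
  rw [heB] at hsp
  have hsumN : ∑ a ∈ B, dg src dst a = 2 * (ein src dst univ).card := by
    rw [← sum_dg]
    refine sum_subset (subset_univ _) fun y _ hy => ?_
    by_contra h0
    have h1 : 0 < (univ.filter (fun e => src e ≠ dst e ∧ (src e = y ∨ dst e = y))).card :=
      Nat.pos_of_ne_zero h0
    obtain ⟨e, he⟩ := card_pos.1 h1
    obtain ⟨_, h4, h5⟩ := mem_filter.1 he
    apply hy
    rcases h5 with h5 | h5
    · exact (hmB _).2 ⟨dst e, h5 ▸ h4, e, Or.inl ⟨h5, rfl⟩⟩
    · exact (hmB _).2 ⟨src e, h5 ▸ h4.symm, e, Or.inr ⟨rfl, h5⟩⟩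
  -- the vertices of degree three and four
  have hn3 : (B.filter (fun x => dg src dst x = 3)).card ≤ (Cv src dst).card :=
    card_le_card (filter_subset_filter _ (subset_univ _))
  have hn4 : (B.filter (fun x => dg src dst x = 4)).card ≤
      (univ.filter (fun x => dg src dst x = 4)).card :=
    card_le_card (filter_subset_filter _ (subset_univ _))
  have hcnt : 4 * B.card ≤ ∑ a ∈ B, dg src dst a + (B.filter (fun x => dg src dst x = 3)).card := by
    have h5 : ∑ _a ∈ B, 4 ≤ ∑ a ∈ B, (dg src dst a + if dg src dst a = 3 then 1 else 0) := by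
      refine sum_le_sum fun a ha => ?_
      have h6 := hdg3 ⟨a, ha⟩
      change 3 ≤ dg src dst a at h6
      split_ifs with h7 <;> omega
    rw [sum_const, smul_eq_mul, sum_add_distrib, ← card_filter] at h5
    omega
  have hcnt5 : 5 * B.card ≤ ∑ a ∈ B, dg src dst a + 2 * (B.filter (fun x => dg src dst x = 3)).card +
      (B.filter (fun x => dg src dst x = 4)).card := by
    have h5 : ∑ _a ∈ B, 5 ≤ ∑ a ∈ B, ((dg src dst a + 2 * if dg src dst a = 3 then 1 else 0) +
        if dg src dst a = 4 then 1 else 0) := by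
      refine sum_le_sum fun a ha => ?_
      have h6 := hdg3 ⟨a, ha⟩
      change 3 ≤ dg src dst a at h6
      split_ifs with h7 h8 h8 <;> omega
    rw [sum_const, smul_eq_mul, sum_add_distrib, sum_add_distrib, ← mul_sum, ← card_filter,
      ← card_filter] at h5
    omega
  set N : ℝ := (B.card : ℝ) with hN
  have hNc : (Fintype.card B : ℝ) = N := by rw [Fintype.card_coe]
  set m : ℝ := (G.edgeFinset.card : ℝ) with hm
  set S : ℝ := ((∑ a ∈ B, dg src dst a : ℕ) : ℝ) with hS
  have hN0 : 0 < N := by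
    rw [hN]
    exact_mod_cast (by omega : 0 < B.card)
  rw [hNc] at hahl
  have hsum : ∑ a : B, (G.degree a : ℝ) = 2 * m := by
    rw [hm]
    exact_mod_cast G.sum_degrees_eq_twice_card_edges
  have hSm : S ≤ 2 * m := by
    rw [← hsum, hS, ← sum_coe_sort B (fun a => dg src dst a)]
    push_cast
    exact sum_le_sum fun a _ => by exact_mod_cast hdeg a
  have hS3 : 3 * N ≤ S := by
    have h5 : 3 * B.card ≤ ∑ a ∈ B, dg src dst a := by
      rw [mul_comm, ← smul_eq_mul, ← sum_const]
      exact sum_le_sum fun a ha => hdg3 ⟨a, ha⟩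
    rw [hN, hS]
    exact_mod_cast h5
  have hSup : 3 * S + 12 ≤ 10 * N := by
    have h5 : 3 * ∑ a ∈ B, dg src dst a + 12 ≤ 10 * B.card := by omega
    rw [hN, hS]
    exact_mod_cast h5
  set x : ℝ := S / N - 1 with hx
  have hx2 : 2 ≤ x := by
    rw [hx]
    have : 3 ≤ S / N := by rwa [le_div_iff₀ hN0]
    linarith
  have hx3 : x ≤ 7 / 3 := by
    rw [hx]
    have : S / N ≤ 10 / 3 := by
      rw [div_le_iff₀ hN0]
      linarith
    linarith
  have hxx : x ≤ 2 * m / N - 1 := by
    rw [hx]
    have : S / N ≤ 2 * m / N := div_le_div_of_nonneg_right hSm hN0.le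
    linarith
  have hmono : 2 * ∑ i ∈ range 6, x ^ i ≤ N := by
    refine le_trans ?_ hahl
    refine mul_le_mul_of_nonneg_left (sum_le_sum fun i _ => ?_) (by norm_num)
    exact pow_le_pow_left₀ (by linarith) hxx i
  refine ⟨x - 2, by linarith, by linarith, ?_, ?_, hsp, by omega, by omega⟩
  · rw [show 2 + (x - 2) = x by ring]
    exact hmono
  · have h10 : (3 + (x - 2)) * N = S := by
      rw [hx]
      field_simp
      ring
    rw [h10, hS, hsumN]
    push_cast
    ring

/-- **Numbers.** -/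
theorem numbers {N m c ν f : ℕ} {y : ℝ} (h0 : 0 ≤ y) (h1 : y ≤ 1 / 3)
    (hN : 2 * ∑ i ∈ range 6, (2 + y) ^ i ≤ (N : ℝ)) (hm : (3 + y) * (N : ℝ) = 2 * (m : ℝ))
    (hs : 3 * m + 6 ≤ 5 * N) (hc : 4 * N ≤ 2 * m + c) (hf : 5 * N ≤ 2 * m + 2 * c + f)
    (hν : 3 * c ≤ 3 * ν + m) : 31 ≤ ν ∧ 63 ≤ ν + f := by
  have key : (2 * ∑ i ∈ range 6, (2 + y) ^ i) =
      2 * (63 + 129 * y + 111 * y ^ 2 + 49 * y ^ 3 + 11 * y ^ 4 + y ^ 5) := by
    rw [sum_range_succ, sum_range_succ, sum_range_succ, sum_range_succ, sum_range_succ,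
      sum_range_succ, sum_range_zero]
    ring
  rw [key] at hN
  have h2 : 0 ≤ y ^ 2 := pow_nonneg h0 2
  have h3 : 0 ≤ y ^ 3 := pow_nonneg h0 3
  have h4 : 0 ≤ y ^ 4 := pow_nonneg h0 4
  have h5 : 0 ≤ y ^ 5 := pow_nonneg h0 5
  constructor
  · by_contra hcon
    push Not at hcon
    -- `12 N - 7 m ≤ 90`
    have h6 : 12 * N ≤ 7 * m + 90 := by omega
    have h7 : (12 : ℝ) * N ≤ 7 * m + 90 := by exact_mod_cast h6
    have h8 : (3 : ℝ) * m + 6 ≤ 5 * N := by exact_mod_cast hs
    have h9 : N ≤ 228 := by omega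
    have h10 : (N : ℝ) ≤ 228 := by exact_mod_cast h9
    have h11 : y ≤ 61 / 200 := by
      by_contra h12
      push Not at h12
      have e2 : (61 / 200) * (61 / 200) ≤ y ^ 2 := by nlinarith
      have e3 : (61 / 200) * ((61 / 200) * (61 / 200)) ≤ y ^ 3 := by nlinarith
      have e4 : (61 / 200) * ((61 / 200) * ((61 / 200) * (61 / 200))) ≤ y ^ 4 := by
        have : y ^ 4 = y ^ 3 * y := by ring
        nlinarith
      linarith
    -- `(3 - 7 y) N ≤ 180`
    have h13 : (3 - 7 * y) * (N : ℝ) ≤ 180 := by nlinarith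
    have h14 : (3 - 7 * y) * (2 * (63 + 129 * y + 111 * y ^ 2 + 49 * y ^ 3)) ≤ (3 - 7 * y) * N :=
      mul_le_mul_of_nonneg_left (by linarith) (by linarith)
    have h15 : 0 ≤ 61 / 200 - y := by linarith
    nlinarith [mul_nonneg h0 h15, mul_nonneg (mul_nonneg h0 h0) h15, mul_nonneg h3 h15,
      mul_nonneg (mul_nonneg h0 h15) h15]
  · by_contra hcon
    push Not at hcon
    have h6 : 15 * N ≤ 8 * m + 372 := by omega
    have h7 : (15 : ℝ) * N ≤ 8 * m + 372 := by exact_mod_cast h6
    have h13 : (3 - 4 * y) * (N : ℝ) ≤ 372 := by nlinarith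
    have h14 : (3 - 4 * y) * (2 * (63 + 129 * y + 111 * y ^ 2)) ≤ (3 - 4 * y) * N :=
      mul_le_mul_of_nonneg_left (by linarith) (by linarith)
    have h15 : 0 ≤ 1 / 3 - y := by linarith
    nlinarith [mul_nonneg h0 h15, mul_nonneg (mul_nonneg h0 h0) h15]

end Pool.Agent.U659.FC
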